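import Pool.Agent.H100R3.InvE

set_option autoImplicit false

namespace Pool.Agent.Results.MP_b9c098_an.FiveInvolutions

universe u

/-- On every infinite-dimensional complex Hilbert space, the invertible bounded operators are
exactly the products of five involutions. -/
theorem result (H : Type u) [NormedAddCommGroup H] [InnerProductSpace ℂ H] [CompleteSpace H]
    (hH : ¬ FiniteDimensional ℂ H) (A : H →L[ℂ] H) :
    IsUnit A ↔ ∃ T : Fin 5 → (H →L[ℂ] H), (∀ i, T i * T i = 1) ∧
      A = T 0 * T 1 * T 2 * T 3 * T 4 := by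
  constructor
  · rintro ⟨u, rfl⟩
    obtain ⟨T, P, Q, P', Q', t, p, q, p', q', h⟩ :=
      Pool.Agent.H100R3.Inv.five hH u.val u.inv u.val_inv u.inv_val
    refine ⟨![T, P, Q, P', Q'], ?_, ?_⟩
    · intro i
      fin_cases i <;> simp [*]
    · exact h
  · rintro ⟨T, hT, rfl⟩
    have h : ∀ i, IsUnit (T i) := fun i => ⟨⟨T i, T i, hT i, hT i⟩, rfl⟩
    exact ((((h 0).mul (h 1)).mul (h 2)).mul (h 3)).mul (h 4)

end Pool.Agent.Results.MP_b9c098_an.FiveInvolutions
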